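import Pool.Agent.MT100A.Stmts
import Pool.Agent.Helper78_MT.Poly

/-! MT100-A: the exponentials of nilpotent matrices, and the span of the nilpotent matrices whose
exponentials are in a Zariski closure. -/

set_option autoImplicit false
set_option linter.unusedSectionVars false

namespace Pool.Agent.MT100A.H78

open Matrix Polynomial Pool.Agent.MT100 Pool.Agent.MT100G Pool.Agent.Helper78_MT

variable {d : Type} [Fintype d] [DecidableEq d]

theorem pow_card {X : Matrix d d ℂ} (hX : IsNilpotent X) : X ^ Fintype.card d = 0 := by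
  have h1 := Matrix.isNilpotent_charpoly_sub_pow_of_isNilpotent hX
  have h2 : X.charpoly = Polynomial.X ^ Fintype.card d := sub_eq_zero.mp h1.eq_zero
  have h3 := Matrix.aeval_self_charpoly X
  rw [h2, map_pow, aeval_X] at h3
  exact h3

theorem nil_smul {X : Matrix d d ℂ} (hX : IsNilpotent X) (s : ℂ) : IsNilpotent (s • X) := by
  refine ⟨Fintype.card d, ?_⟩
  rw [_root_.smul_pow, pow_card hX, smul_zero]

theorem ue_exp {X : Matrix d d ℂ} (hX : IsNilpotent X) (s : ℂ) :
    ue X s = IsNilpotent.exp (s • X) := by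
  have h1 : (s • X) ^ Fintype.card d = 0 := by rw [_root_.smul_pow, pow_card hX, smul_zero]
  rw [IsNilpotent.exp_eq_sum h1]
  unfold ue
  apply Finset.sum_congr rfl
  intro t _
  rw [_root_.smul_pow, ← Rat.cast_smul_eq_qsmul ℂ, smul_smul]
  push_cast
  rfl

theorem ue_mul {X : Matrix d d ℂ} (hX : IsNilpotent X) (s t : ℂ) : ue X s * ue X t = ue X (s + t) := by
  have hc : Commute (s • X) (t • X) := ((Commute.refl X).smul_left s).smul_right t
  rw [ue_exp hX, ue_exp hX, ue_exp hX, add_smul,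
    IsNilpotent.exp_add_of_commute hc (nil_smul hX s) (nil_smul hX t)]

theorem ue_z {X : Matrix d d ℂ} (hX : IsNilpotent X) : ue X 0 = 1 := by
  rw [ue_exp hX, zero_smul, IsNilpotent.exp_zero]

theorem ue_inv {X : Matrix d d ℂ} (hX : IsNilpotent X) (s : ℂ) : ue X s * ue X (-s) = 1 := by
  rw [ue_mul hX, add_neg_cancel, ue_z hX]

theorem ue_inv' {X : Matrix d d ℂ} (hX : IsNilpotent X) (s : ℂ) : ue X (-s) * ue X s = 1 := by
  rw [ue_mul hX, neg_add_cancel, ue_z hX]

theorem conj_pow {T T' X : Matrix d d ℂ} (h : T' * T = 1) (h' : T * T' = 1) (k : ℕ) :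
    (T * X * T') ^ k = T * X ^ k * T' := by
  induction k with
  | zero => rw [pow_zero, pow_zero, mul_one, h']
  | succ k ih =>
    rw [pow_succ, ih, pow_succ]
    calc T * X ^ k * T' * (T * X * T') = T * X ^ k * (T' * T) * X * T' := by
          simp only [Matrix.mul_assoc]
      _ = _ := by rw [h, mul_one, ← Matrix.mul_assoc T]

theorem ue_conj {T T' : Matrix d d ℂ} (h : T' * T = 1) (h' : T * T' = 1) (X : Matrix d d ℂ) (s : ℂ) :
    ue (T * X * T') s = T * ue X s * T' := by
  unfold ue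
  rw [Finset.mul_sum, Finset.sum_mul]
  apply Finset.sum_congr rfl
  intro k _
  rw [conj_pow h h', Matrix.mul_smul, Matrix.smul_mul]

theorem nil_conj {T T' X : Matrix d d ℂ} (h : T' * T = 1) (h' : T * T' = 1) (hX : IsNilpotent X) :
    IsNilpotent (T * X * T') := by
  obtain ⟨k, hk⟩ := hX
  refine ⟨k, ?_⟩
  rw [conj_pow h h', hk, mul_zero, zero_mul]

/-- the coefficient of `s` -/
theorem coeff_one (n : ℕ) (m : ℕ → ℕ → ℂ) (c : ℂ)
    (h : ∀ s : ℂ, ∑ a ∈ Finset.range (n + 2), ∑ b ∈ Finset.range (n + 2), m a b * s ^ (a + b) = c) :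
    m 1 0 + m 0 1 = 0 := by
  have h0 : (∑ a ∈ Finset.range (n + 2), ∑ b ∈ Finset.range (n + 2),
      C (m a b) * Polynomial.X ^ (a + b) : ℂ[X]) = C c := by
    apply Polynomial.funext
    intro s
    rw [eval_C, ← h s]
    simp only [Polynomial.eval_finsetSum, eval_mul, eval_C, eval_pow, eval_X]
  have h1 := congrArg (fun P : ℂ[X] => P.coeff 1) h0
  simp only [Polynomial.finsetSum_coeff, Polynomial.coeff_C_mul, Polynomial.coeff_X_pow,
    Polynomial.coeff_C, one_ne_zero, if_false] at h1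
  rw [Finset.sum_range_succ', Finset.sum_range_succ', Finset.sum_eq_zero, zero_add] at h1
  · rw [Finset.sum_eq_single 0, Finset.sum_eq_single 1] at h1
    · simpa using h1
    · intro b _ hb
      rw [if_neg (by omega), mul_zero]
    · intro hb
      exact absurd (Finset.mem_range.mpr (by omega)) hb
    · intro b _ hb
      rw [if_neg (by omega), mul_zero]
    · intro hb
      exact absurd (Finset.mem_range.mpr (by omega)) hb
  · intro a _
    apply Finset.sum_eq_zero
    intro b _
    rw [if_neg (by omega), mul_zero]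

theorem two_le_or {X : Matrix d d ℂ} (hX : IsNilpotent X) : X = 0 ∨ ∃ n, Fintype.card d = n + 2 := by
  rcases Nat.lt_or_ge (Fintype.card d) 2 with h | h
  · left
    have h1 := pow_eq_zero_of_le (show Fintype.card d ≤ 1 by omega) (pow_card hX)
    rwa [pow_one] at h1
  · right
    exact ⟨Fintype.card d - 2, by omega⟩

/-- the nilpotent matrices whose exponentials are in the Zariski closure of `M` -/
def nilP (M : Set (Matrix d d ℂ)) : Set (Matrix d d ℂ) :=
  {X | IsNilpotent X ∧ ∀ s : ℂ, ue X s ∈ zclosure ℂ ℂ M}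

/-- their span -/
def UP (M : Set (Matrix d d ℂ)) : Submodule ℂ (Matrix d d ℂ) := Submodule.span ℂ (nilP M)

variable {M : Set (Matrix d d ℂ)}

theorem zc_mul (hM : ∀ a ∈ M, ∀ b ∈ M, a * b ∈ M) {A B : Matrix d d ℂ}
    (hA : A ∈ zclosure ℂ ℂ M) (hB : B ∈ zclosure ℂ ℂ M) : A * B ∈ zclosure ℂ ℂ M :=
  zcl_mul hM hA hB

/-- brackets -/
theorem UP_br1 (hM : ∀ a ∈ M, ∀ b ∈ M, a * b ∈ M) {X : Matrix d d ℂ} (hX : X ∈ nilP M)
    {Y : Matrix d d ℂ} (hY : Y ∈ UP M) : X * Y - Y * X ∈ UP M := by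
  rcases two_le_or hX.1 with h0 | ⟨n, hn⟩
  · rw [h0, zero_mul, mul_zero, sub_zero]
    exact Submodule.zero_mem _
  have hgen : ∀ Y ∈ nilP M, X * Y - Y * X ∈ UP M := by
    intro Y hY
    by_contra hnot
    obtain ⟨f, hf, hle⟩ := Submodule.exists_le_ker_of_notMem hnot
    apply hf
    have h1 : ∀ s : ℂ, f (ue X s * Y * ue X (-s)) = 0 := by
      intro s
      apply hle
      apply Submodule.subset_span
      refine ⟨nil_conj (ue_inv' hX.1 s) (ue_inv hX.1 s) hY.1, fun t => ?_⟩
      rw [ue_conj (ue_inv' hX.1 s) (ue_inv hX.1 s)]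
      exact zc_mul hM (zc_mul hM (hX.2 s) (hY.2 t)) (hX.2 (-s))
    have h2 := coeff_one n (fun a b => ((a.factorial : ℂ)⁻¹ * ((b.factorial : ℂ)⁻¹ * (-1) ^ b)) *
      f (X ^ a * Y * X ^ b)) 0 (by
      intro s
      rw [← h1 s]
      unfold ue
      rw [hn, Finset.sum_mul, Finset.sum_mul, map_sum]
      apply Finset.sum_congr rfl
      intro a _
      rw [Finset.mul_sum, map_sum]
      apply Finset.sum_congr rfl
      intro b _
      rw [Matrix.smul_mul, Matrix.smul_mul, Matrix.mul_smul, smul_smul, map_smul, smul_eq_mul,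
        pow_add, neg_pow s]
      ring)
    simp only [Nat.factorial_one, Nat.factorial_zero, Nat.cast_one, inv_one, pow_zero, pow_one,
      mul_one, one_mul, neg_mul] at h2
    rw [map_sub]
    linear_combination h2
  induction hY using Submodule.span_induction with
  | mem Y hY => exact hgen Y hY
  | zero =>
    rw [mul_zero, zero_mul, sub_zero]
    exact Submodule.zero_mem _
  | add Y Z _ _ h1 h2 =>
    have : X * (Y + Z) - (Y + Z) * X = (X * Y - Y * X) + (X * Z - Z * X) := by
      rw [mul_add, add_mul]; abel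
    rw [this]
    exact Submodule.add_mem _ h1 h2
  | smul c Y _ h1 =>
    rw [Matrix.mul_smul, Matrix.smul_mul, ← smul_sub]
    exact Submodule.smul_mem _ _ h1

theorem UP_br (hM : ∀ a ∈ M, ∀ b ∈ M, a * b ∈ M) {X Y : Matrix d d ℂ} (hX : X ∈ UP M)
    (hY : Y ∈ UP M) : X * Y - Y * X ∈ UP M := by
  induction hX using Submodule.span_induction with
  | mem X hX => exact UP_br1 hM hX hY
  | zero =>
    rw [mul_zero, zero_mul, sub_zero]
    exact Submodule.zero_mem _
  | add X Z _ _ h1 h2 =>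
    have : (X + Z) * Y - Y * (X + Z) = (X * Y - Y * X) + (Z * Y - Y * Z) := by
      rw [mul_add, add_mul]; abel
    rw [this]
    exact Submodule.add_mem _ h1 h2
  | smul c X _ h1 =>
    rw [Matrix.mul_smul, Matrix.smul_mul, ← smul_sub]
    exact Submodule.smul_mem _ _ h1

/-- the closure preserves the form -/
theorem zc_form {F : Matrix d d ℂ} (hF : ∀ γ ∈ M, γᵀ * F * γ = F) {X : Matrix d d ℂ}
    (hX : X ∈ zclosure ℂ ℂ M) : Xᵀ * F * X = F := by
  obtain ⟨Q, hQ⟩ : ∃ Q : d → d → MvPolynomial (d × d) ℂ,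
      ∀ (Y : Matrix d d ℂ) (i j : d), pev Y (Q i j) = (Yᵀ * F * Y) i j := by
    refine ⟨fun i j => ∑ x, (∑ y, MvPolynomial.X (y, i) * MvPolynomial.C (F y x)) *
      MvPolynomial.X (x, j), ?_⟩
    intro Y i j
    rw [map_sum, Matrix.mul_apply]
    apply Finset.sum_congr rfl
    intro x _
    rw [map_mul, pev_X, map_sum, Matrix.mul_apply]
    congr 1
    apply Finset.sum_congr rfl
    intro y _
    rw [map_mul, pev_X, pev_C, transpose_apply]
    rfl
  ext i j
  have h1 := hX.2 (Q i j - MvPolynomial.C (F i j)) (by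
    intro m hm
    rw [map_sub, pev_C, hQ, hF m hm, sub_eq_zero]
    rfl)
  rw [map_sub, pev_C, hQ, sub_eq_zero] at h1
  exact h1

theorem nilP_form {F : Matrix d d ℂ} (hF : ∀ γ ∈ M, γᵀ * F * γ = F) {X : Matrix d d ℂ}
    (hX : X ∈ nilP M) : Xᵀ * F + F * X = 0 := by
  rcases two_le_or hX.1 with h0 | ⟨n, hn⟩
  · rw [h0, transpose_zero, zero_mul, mul_zero, add_zero]
  ext i j
  have h1 : ∀ s : ℂ, ((ue X s)ᵀ * F * ue X s) i j = F i j := fun s => by rw [zc_form hF (hX.2 s)]
  have h2 := coeff_one n (fun a b => ((a.factorial : ℂ)⁻¹ * (b.factorial : ℂ)⁻¹) *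
    ((X ^ a)ᵀ * F * X ^ b) i j) (F i j) (by
    intro s
    rw [← h1 s]
    unfold ue
    rw [hn, transpose_sum, Finset.sum_mul, Finset.sum_mul, Matrix.sum_apply]
    apply Finset.sum_congr rfl
    intro a _
    rw [Finset.mul_sum, Matrix.sum_apply]
    apply Finset.sum_congr rfl
    intro b _
    rw [transpose_smul, Matrix.smul_mul, Matrix.smul_mul, Matrix.mul_smul, smul_smul,
      Matrix.smul_apply, smul_eq_mul, pow_add]
    ring)
  simp only [Nat.factorial_one, Nat.factorial_zero, Nat.cast_one, inv_one, pow_zero, pow_one,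
    mul_one, one_mul, transpose_one] at h2
  rw [Matrix.add_apply, Matrix.zero_apply]
  exact h2

theorem UP_form {F : Matrix d d ℂ} (hF : ∀ γ ∈ M, γᵀ * F * γ = F) {X : Matrix d d ℂ}
    (hX : X ∈ UP M) : Xᵀ * F + F * X = 0 := by
  induction hX using Submodule.span_induction with
  | mem X hX => exact nilP_form hF hX
  | zero => rw [transpose_zero, zero_mul, mul_zero, add_zero]
  | add X Y _ _ h1 h2 =>
    rw [transpose_add, add_mul, mul_add, add_add_add_comm, h1, h2, add_zero]
  | smul c X _ h1 =>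
    rw [transpose_smul, Matrix.smul_mul, Matrix.mul_smul, ← smul_add, h1, smul_zero]

end Pool.Agent.MT100A.H78
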