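import Pool.Agent.Helper78_MTA.Uex
import Pool.Agent.Helper46_MTGO.PosE

/-! MT100-A, IRR: if the connected monodromy group is absolutely irreducible and normalised by the
Deligne torus, it contains the Deligne torus up to homotheties. -/

set_option autoImplicit false
set_option linter.unusedSectionVars false

namespace Pool.Agent.MT100A.H78

open Matrix Polynomial Pool.Agent.MT100 Pool.Agent.MT100G Pool.Agent.Helper78_MT
open Pool.Agent.Helper46_MT Pool.Agent.Helper3_MT Pool.Agent.MT100G.H46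
open scoped ComplexOrder

variable {d : Type} [Fintype d] [DecidableEq d] {M : Set (Matrix d d ℂ)} {w : ℕ}
  {E : Matrix d d ℚ} {π : ℕ → Matrix d d ℂ} {V : ℕ → Submodule ℂ (d → ℂ)}

/-! ### Complex conjugation -/

theorem ue_star (X : Matrix d d ℂ) (s : ℂ) :
    ue (X.map (starRingEnd ℂ)) s = (ue X (starRingEnd ℂ s)).map (starRingEnd ℂ) := by
  have h1 : ∀ k : ℕ, (X.map (starRingEnd ℂ)) ^ k = (X ^ k).map (starRingEnd ℂ) := by
    intro k
    have := (map_pow (starRingEnd ℂ).mapMatrix X k).symm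
    rwa [RingHom.mapMatrix_apply, RingHom.mapMatrix_apply] at this
  unfold ue
  ext i j
  rw [Matrix.map_apply, Matrix.sum_apply, Matrix.sum_apply, map_sum]
  apply Finset.sum_congr rfl
  intro k _
  rw [h1, Matrix.smul_apply, Matrix.smul_apply, Matrix.map_apply, smul_eq_mul, smul_eq_mul, map_mul,
    map_mul, map_pow, Complex.conj_conj, map_inv₀, map_natCast]

theorem zc_star (hr : ∀ γ ∈ M, γ.map (starRingEnd ℂ) = γ) {A : Matrix d d ℂ}
    (hA : A ∈ zclosure ℂ ℂ M) : A.map (starRingEnd ℂ) ∈ zclosure ℂ ℂ M := by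
  obtain ⟨τ, hτ⟩ : ∃ τ : ℂ ≃+* ℂ, τ = starRingAut := ⟨_, rfl⟩
  have hτm : ∀ B : Matrix d d ℂ, B.map τ = B.map (starRingEnd ℂ) := by
    intro B
    rw [hτ]
    rfl
  refine ⟨?_, fun p hp => ?_⟩
  · have h3 := hA.1.map (starRingEnd ℂ)
    rw [RingHom.map_det, RingHom.mapMatrix_apply] at h3
    exact h3
  · obtain ⟨q, hq⟩ : ∃ q, q = MvPolynomial.map (τ.symm : ℂ →+* ℂ) p := ⟨_, rfl⟩
    have hpq : p = MvPolynomial.map (τ : ℂ →+* ℂ) q := by rw [hq, map_symm_map]
    have hq0 : ∀ γ ∈ M, pev γ q = 0 := by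
      intro γ hγ
      have h1 := pev_twist τ γ q
      rw [← hpq, hτm, hr γ hγ, hp γ hγ] at h1
      exact (map_eq_zero_iff τ τ.injective).1 h1.symm
    have h1 := pev_twist τ A q
    rw [← hpq, hτm, hA.2 q hq0, map_zero] at h1
    exact h1

theorem UP_star (hr : ∀ γ ∈ M, γ.map (starRingEnd ℂ) = γ) {X : Matrix d d ℂ} (hX : X ∈ UP M) :
    X.map (starRingEnd ℂ) ∈ UP M := by
  induction hX using Submodule.span_induction with
  | mem X hX =>
    apply Submodule.subset_span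
    refine ⟨?_, fun s => ?_⟩
    · obtain ⟨k, hk⟩ := hX.1
      refine ⟨k, ?_⟩
      have := (map_pow (starRingEnd ℂ).mapMatrix X k).symm
      rw [RingHom.mapMatrix_apply, hk, map_zero] at this
      exact this
    · rw [ue_star]
      exact zc_star hr (hX.2 _)
  | zero =>
    rw [Matrix.map_zero _ (map_zero _)]
    exact Submodule.zero_mem _
  | add X Y _ _ h1 h2 =>
    rw [Matrix.map_add _ (map_add _)]
    exact Submodule.add_mem _ h1 h2
  | smul c X _ h1 =>
    have : (c • X).map (starRingEnd ℂ) = (starRingEnd ℂ c) • X.map (starRingEnd ℂ) := by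
      ext i j
      simp
    rw [this]
    exact Submodule.smul_mem _ _ h1

/-! ### The torus -/

/-- the Deligne torus normalises the connected group generated by the unipotents -/
def TorusNorm (w : ℕ) (V : ℕ → Submodule ℂ (d → ℂ)) (M : Set (Matrix d d ℂ)) : Prop :=
  ∀ T ∈ hodgeTorus w V, ∀ X : Matrix d d ℂ, IsNilpotent X → (∀ s : ℂ, ue X s ∈ zclosure ℂ ℂ M) →
    ∀ s : ℂ, ue (T * X * T⁻¹) s ∈ zclosure ℂ ℂ M

theorem Tc_inv' (h : Proj w E π) {t : ℂ} (ht : t ≠ 0) : Tc w π t⁻¹ * Tc w π t = 1 := by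
  rw [h.Tc_mul, inv_mul_cancel₀ ht, h.Tc_one]

/-- the span is stable under the elements `T(z / conj z)` -/
theorem UP_torus (hN : TorusNorm w V M) (hπ : Proj w E π) (h2 : ∀ p, ∀ x ∈ V p, π p *ᵥ x = x)
    {z : ℂ} (hz0 : z ≠ 0) {X : Matrix d d ℂ} (hX : X ∈ UP M) :
    Tc w π (z / starRingEnd ℂ z) * X * Tc w π (z / starRingEnd ℂ z)⁻¹ ∈ UP M := by
  have hc : starRingEnd ℂ z ≠ 0 := (_root_.map_ne_zero _).2 hz0
  have ht : z / starRingEnd ℂ z ≠ 0 := div_ne_zero hz0 hc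
  obtain ⟨t, ht'⟩ : ∃ t, t = z / starRingEnd ℂ z := ⟨_, rfl⟩
  rw [← ht'] at ht ⊢
  have h1 := hπ.Tc_inv ht
  have h1' := Tc_inv' hπ ht
  have hzi : (hz w π z)⁻¹ = ((starRingEnd ℂ z) ^ w)⁻¹ • Tc w π t⁻¹ := by
    apply Matrix.inv_eq_right_inv
    rw [hz_eq hz0, ← ht', smul_mul_smul_comm, h1, mul_inv_cancel₀ (pow_ne_zero _ hc), one_smul]
  have hconj : ∀ X, hz w π z * X * (hz w π z)⁻¹ = Tc w π t * X * Tc w π t⁻¹ := by
    intro X
    rw [hzi, hz_eq hz0, ← ht', Matrix.smul_mul, Matrix.smul_mul, Matrix.mul_smul, smul_smul,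
      mul_inv_cancel₀ (pow_ne_zero _ hc), one_smul]
  induction hX using Submodule.span_induction with
  | mem X hX =>
    apply Submodule.subset_span
    refine ⟨nil_conj h1' h1 hX.1, fun s => ?_⟩
    rw [← hconj]
    exact hN _ (hz_torus hπ h2 hz0) X hX.1 hX.2 s
  | zero =>
    rw [mul_zero, zero_mul]
    exact Submodule.zero_mem _
  | add X Y _ _ h3 h4 =>
    rw [mul_add, add_mul]
    exact Submodule.add_mem _ h3 h4
  | smul c X _ h3 =>
    rw [Matrix.mul_smul, Matrix.smul_mul]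
    exact Submodule.smul_mem _ _ h3

/-- the span is stable under the infinitesimal generator of the torus -/
theorem UP_phi (hN : TorusNorm w V M) (hπ : Proj w E π) (h2 : ∀ p, ∀ x ∈ V p, π p *ᵥ x = x)
    {X : Matrix d d ℂ} (hX : X ∈ UP M) : Phi w π * X - X * Phi w π ∈ UP M := by
  by_contra hnot
  obtain ⟨f, hf, hle⟩ := Submodule.exists_le_ker_of_notMem hnot
  obtain ⟨Q, hQ⟩ : ∃ Q : ℂ[X], Q = ∑ p ∈ Finset.range (w + 1), ∑ q ∈ Finset.range (w + 1),
      C (f (π p * X * π q)) * Polynomial.X ^ (p + (w - q)) := ⟨_, rfl⟩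
  have hQe : ∀ t : ℂ, t ≠ 0 → Q.eval t = t ^ w * f (Tc w π t * X * Tc w π t⁻¹) := by
    intro t ht
    rw [hQ]
    unfold Tc
    rw [Finset.sum_mul, Finset.sum_mul, map_sum, Finset.mul_sum, Polynomial.eval_finsetSum]
    apply Finset.sum_congr rfl
    intro p _
    rw [Finset.mul_sum, map_sum, Finset.mul_sum, Polynomial.eval_finsetSum]
    apply Finset.sum_congr rfl
    intro q hq
    have hq' := Nat.lt_succ_iff.1 (Finset.mem_range.1 hq)
    rw [Polynomial.eval_mul, Polynomial.eval_C, Polynomial.eval_pow, Polynomial.eval_X,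
      smul_mul_assoc, smul_mul_smul_comm, map_smul, smul_eq_mul]
    have h4 : t ^ w * (t⁻¹) ^ q = t ^ (w - q) := by
      rw [inv_pow, ← div_eq_mul_inv, div_eq_iff (pow_ne_zero _ ht), ← pow_add,
        Nat.sub_add_cancel hq']
    rw [pow_add, ← h4]
    ring
  have hQ0 : Q = 0 := by
    apply Polynomial.eq_zero_of_infinite_isRoot
    apply Set.infinite_of_injective_forall_mem inj_cayley
    intro k
    change Polynomial.eval _ _ = 0
    have hz0 : (1 + (k : ℂ) * Complex.I) ≠ 0 := by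
      intro hk
      have := congrArg Complex.re hk
      simp at this
    have hc : starRingEnd ℂ (1 + (k : ℂ) * Complex.I) ≠ 0 := (_root_.map_ne_zero _).2 hz0
    rw [hQe _ (div_ne_zero hz0 hc)]
    have h3 : f _ = 0 := hle (UP_torus hN hπ h2 hz0 hX)
    rw [h3, mul_zero]
  have e1 : ∑ p ∈ Finset.range (w + 1), ∑ q ∈ Finset.range (w + 1), f (π p * X * π q) = 0 := by
    have h3 := congrArg (Polynomial.eval 1) hQ0
    rw [hQ, Polynomial.eval_zero] at h3
    simpa only [Polynomial.eval_finsetSum, eval_mul, eval_C, eval_pow, eval_X, one_pow, mul_one]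
      using h3
  have e2 : ∑ p ∈ Finset.range (w + 1), ∑ q ∈ Finset.range (w + 1),
      ((p + (w - q) : ℕ) : ℂ) * f (π p * X * π q) = 0 := by
    have h3 := congrArg (fun P : ℂ[X] => P.derivative.eval 1) hQ0
    rw [hQ] at h3
    simp only [Polynomial.derivative_sum, Polynomial.derivative_C_mul_X_pow, Polynomial.eval_finsetSum,
      eval_mul, eval_C, eval_pow, eval_X, one_pow, mul_one, Polynomial.derivative_zero,
      Polynomial.eval_zero] at h3
    rw [← h3]
    apply Finset.sum_congr rfl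
    intro p _
    apply Finset.sum_congr rfl
    intro q _
    ring
  apply hf
  have h3 : Phi w π * X - X * Phi w π = ∑ p ∈ Finset.range (w + 1), ∑ q ∈ Finset.range (w + 1),
      (((p + (w - q) : ℕ) : ℂ) - w) • (π p * X * π q) := by
    have h4 : Phi w π * X = ∑ p ∈ Finset.range (w + 1), ∑ q ∈ Finset.range (w + 1),
        (p : ℂ) • (π p * X * π q) := by
      conv_lhs => rw [← mul_one (Phi w π * X), ← hπ.sum]
      unfold Phi
      rw [Finset.sum_mul, Finset.sum_mul]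
      apply Finset.sum_congr rfl
      intro p _
      rw [Finset.mul_sum]
      apply Finset.sum_congr rfl
      intro q _
      rw [Matrix.smul_mul, Matrix.smul_mul]
    have h5 : X * Phi w π = ∑ p ∈ Finset.range (w + 1), ∑ q ∈ Finset.range (w + 1),
        (q : ℂ) • (π p * X * π q) := by
      conv_lhs => rw [← one_mul (X * Phi w π), ← hπ.sum]
      unfold Phi
      rw [Finset.sum_mul]
      apply Finset.sum_congr rfl
      intro p _
      rw [Finset.mul_sum, Finset.mul_sum]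
      apply Finset.sum_congr rfl
      intro q _
      rw [Matrix.mul_smul, Matrix.mul_smul, Matrix.mul_assoc]
    rw [h4, h5, ← Finset.sum_sub_distrib]
    apply Finset.sum_congr rfl
    intro p _
    rw [← Finset.sum_sub_distrib]
    apply Finset.sum_congr rfl
    intro q hq
    have hq' := Nat.lt_succ_iff.1 (Finset.mem_range.1 hq)
    rw [← sub_smul]
    congr 1
    push_cast [Nat.cast_sub hq']
    ring
  rw [h3, map_sum]
  have e3 : ∀ p ∈ Finset.range (w + 1), f (∑ q ∈ Finset.range (w + 1),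
      (((p + (w - q) : ℕ) : ℂ) - w) • (π p * X * π q)) = ∑ q ∈ Finset.range (w + 1),
      (((p + (w - q) : ℕ) : ℂ) * f (π p * X * π q) - w * f (π p * X * π q)) := by
    intro p _
    rw [map_sum]
    apply Finset.sum_congr rfl
    intro q _
    rw [map_smul, smul_eq_mul, sub_mul]
  rw [Finset.sum_congr rfl e3]
  simp only [Finset.sum_sub_distrib]
  rw [e2]
  simp only [← Finset.mul_sum]
  rw [e1, mul_zero, sub_zero]

/-! ### The trace form -/

/-- positivity -/
theorem nd_odd (hV : PolHodge w E V) (hw : Odd w) (h : Proj w E π)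
    (h1 : ∀ p x, π p *ᵥ x ∈ V p) {X : Matrix d d ℂ}
    (hXe : (X.map (starRingEnd ℂ))ᵀ * E.map (algebraMap ℚ ℂ) +
      E.map (algebraMap ℚ ℂ) * X.map (starRingEnd ℂ) = 0)
    (h2 : (X * (Cw w π * X.map (starRingEnd ℂ) * Cw w π)).trace = 0) : X = 0 := by
  obtain ⟨S, hS, hSM⟩ := posdef_fac (gram hV hw h h1)
  obtain ⟨F, hF⟩ : ∃ F, F = E.map (algebraMap ℚ ℂ) := ⟨_, rfl⟩
  obtain ⟨C, hC⟩ : ∃ C, C = Cw w π := ⟨_, rfl⟩
  obtain ⟨Xb, hXb⟩ : ∃ Xb, Xb = X.map (starRingEnd ℂ) := ⟨_, rfl⟩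
  have hCC : C * C = -1 := by rw [hC]; exact Cw_sq h hw
  rw [← hC, ← hXb] at h2
  -- the adjoint for the Gram matrix
  rw [← hF, ← hC] at hSM
  rw [← hXb, ← hF] at hXe
  have hadj : (-(F * C)) * (C * Xb * C) = Xᴴ * (-(F * C)) := by
    have e1 : Xᴴ = Xbᵀ := by rw [hXb]; rfl
    have e2 : Xbᵀ * F = -(F * Xb) := eq_neg_of_add_eq_zero_left hXe
    calc (-(F * C)) * (C * Xb * C) = -(F * (C * C) * Xb * C) := by
          simp only [neg_mul, mul_assoc]
      _ = F * Xb * C := by rw [hCC, mul_neg, mul_one, neg_mul, neg_mul, neg_neg]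
      _ = -(Xbᵀ * F) * C := by rw [e2, neg_neg]
      _ = _ := by rw [e1, neg_mul, mul_neg, mul_assoc]
  rw [hSM] at hadj
  have hSd : IsUnit S.det := (isUnit_iff_isUnit_det S).1 hS
  have hSi : S * S⁻¹ = 1 := mul_nonsing_inv S hSd
  have hSi' : S⁻¹ * S = 1 := nonsing_inv_mul S hSd
  have h3 : (S * X * S⁻¹) * (S * X * S⁻¹)ᴴ = S * (X * (C * Xb * C)) * S⁻¹ := by
    have e1 : (S⁻¹)ᴴ * Sᴴ = 1 := by rw [← conjTranspose_mul, hSi, conjTranspose_one]
    have e2 : S * (C * Xb * C) = (S⁻¹)ᴴ * Xᴴ * Sᴴ * S := by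
      calc S * (C * Xb * C) = ((S⁻¹)ᴴ * Sᴴ) * (S * (C * Xb * C)) := by rw [e1, one_mul]
        _ = (S⁻¹)ᴴ * (Sᴴ * S * (C * Xb * C)) := by simp only [mul_assoc]
        _ = _ := by rw [hadj]; simp only [mul_assoc]
    have e3 : C * Xb * C = S⁻¹ * (S⁻¹)ᴴ * Xᴴ * Sᴴ * S := by
      calc C * Xb * C = (S⁻¹ * S) * (C * Xb * C) := by rw [hSi', one_mul]
        _ = S⁻¹ * (S * (C * Xb * C)) := by simp only [mul_assoc]
        _ = _ := by rw [e2]; simp only [mul_assoc]
    rw [e3, conjTranspose_mul, conjTranspose_mul]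
    have e4 : S * (X * (S⁻¹ * (S⁻¹)ᴴ * Xᴴ * Sᴴ * S)) * S⁻¹ =
        S * X * S⁻¹ * ((S⁻¹)ᴴ * (Xᴴ * Sᴴ)) * (S * S⁻¹) := by simp only [mul_assoc]
    rw [e4, hSi, mul_one]
  have h4 : ((S * X * S⁻¹) * (S * X * S⁻¹)ᴴ).trace = 0 := by
    rw [h3, trace_mul_comm, ← mul_assoc, hSi', one_mul]
    exact h2
  rw [trace_mul_conjTranspose_self_eq_zero_iff] at h4
  calc X = (S⁻¹ * S) * X * (S⁻¹ * S) := by rw [hSi', one_mul, mul_one]
    _ = S⁻¹ * (S * X * S⁻¹) * S := by simp only [mul_assoc]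
    _ = 0 := by rw [h4, mul_zero, zero_mul]

theorem nd_even (hV : PolHodge w E V) (hw : Even w) (h : Proj w E π)
    (h1 : ∀ p x, π p *ᵥ x ∈ V p) {X : Matrix d d ℂ}
    (hXe : (X.map (starRingEnd ℂ))ᵀ * E.map (algebraMap ℚ ℂ) +
      E.map (algebraMap ℚ ℂ) * X.map (starRingEnd ℂ) = 0)
    (h2 : (X * (Cw w π * X.map (starRingEnd ℂ) * Cw w π)).trace = 0) : X = 0 := by
  obtain ⟨S, hS, hSM⟩ := posdef_fac (MT100GO.H46.gram_even hV hw h h1)
  obtain ⟨F, hF⟩ : ∃ F, F = E.map (algebraMap ℚ ℂ) := ⟨_, rfl⟩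
  obtain ⟨C, hC⟩ : ∃ C, C = Cw w π := ⟨_, rfl⟩
  obtain ⟨Xb, hXb⟩ : ∃ Xb, Xb = X.map (starRingEnd ℂ) := ⟨_, rfl⟩
  have hCC : C * C = 1 := by rw [hC]; exact MT100GO.H46.Cw_sq_even h hw
  rw [← hC, ← hXb] at h2
  have h2' : (X * (-(C * Xb * C))).trace = 0 := by rw [mul_neg, trace_neg, h2, neg_zero]
  -- the adjoint for the Gram matrix
  rw [← hF, ← hC] at hSM
  rw [← hXb, ← hF] at hXe
  have hadj : (F * C) * (-(C * Xb * C)) = Xᴴ * (F * C) := by
    have e1 : Xᴴ = Xbᵀ := by rw [hXb]; rfl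
    have e2 : Xbᵀ * F = -(F * Xb) := eq_neg_of_add_eq_zero_left hXe
    calc (F * C) * (-(C * Xb * C)) = -(F * (C * C) * Xb * C) := by
          simp only [mul_neg, mul_assoc]
      _ = -(F * Xb) * C := by rw [hCC, mul_one, neg_mul]
      _ = (Xbᵀ * F) * C := by rw [e2]
      _ = _ := by rw [e1, mul_assoc]
  rw [hSM] at hadj
  have hSd : IsUnit S.det := (isUnit_iff_isUnit_det S).1 hS
  have hSi : S * S⁻¹ = 1 := mul_nonsing_inv S hSd
  have hSi' : S⁻¹ * S = 1 := nonsing_inv_mul S hSd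
  have h3 : (S * X * S⁻¹) * (S * X * S⁻¹)ᴴ = S * (X * (-(C * Xb * C))) * S⁻¹ := by
    have e1 : (S⁻¹)ᴴ * Sᴴ = 1 := by rw [← conjTranspose_mul, hSi, conjTranspose_one]
    have e2 : S * (-(C * Xb * C)) = (S⁻¹)ᴴ * Xᴴ * Sᴴ * S := by
      calc S * (-(C * Xb * C)) = ((S⁻¹)ᴴ * Sᴴ) * (S * (-(C * Xb * C))) := by rw [e1, one_mul]
        _ = (S⁻¹)ᴴ * (Sᴴ * S * (-(C * Xb * C))) := by simp only [mul_assoc]
        _ = _ := by rw [hadj]; simp only [mul_assoc]
    have e3 : -(C * Xb * C) = S⁻¹ * (S⁻¹)ᴴ * Xᴴ * Sᴴ * S := by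
      calc -(C * Xb * C) = (S⁻¹ * S) * (-(C * Xb * C)) := by rw [hSi', one_mul]
        _ = S⁻¹ * (S * (-(C * Xb * C))) := by simp only [mul_assoc]
        _ = _ := by rw [e2]; simp only [mul_assoc]
    rw [e3, conjTranspose_mul, conjTranspose_mul]
    have e4 : S * (X * (S⁻¹ * (S⁻¹)ᴴ * Xᴴ * Sᴴ * S)) * S⁻¹ =
        S * X * S⁻¹ * ((S⁻¹)ᴴ * (Xᴴ * Sᴴ)) * (S * S⁻¹) := by simp only [mul_assoc]
    rw [e4, hSi, mul_one]
  have h4 : ((S * X * S⁻¹) * (S * X * S⁻¹)ᴴ).trace = 0 := by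
    rw [h3, trace_mul_comm, ← mul_assoc, hSi', one_mul]
    exact h2'
  rw [trace_mul_conjTranspose_self_eq_zero_iff] at h4
  calc X = (S⁻¹ * S) * X * (S⁻¹ * S) := by rw [hSi', one_mul, mul_one]
    _ = S⁻¹ * (S * X * S⁻¹) * S := by simp only [mul_assoc]
    _ = 0 := by rw [h4, mul_zero, zero_mul]

/-- the trace form on the span is nondegenerate -/
theorem UP_nd (hV : PolHodge w E V) (hπ : Proj w E π) (h1 : ∀ p x, π p *ᵥ x ∈ V p)
    (h2 : ∀ p, ∀ x ∈ V p, π p *ᵥ x = x) (hN : TorusNorm w V M)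
    (hr : ∀ γ ∈ M, γ.map (starRingEnd ℂ) = γ)
    (hF : ∀ γ ∈ M, γᵀ * E.map (algebraMap ℚ ℂ) * γ = E.map (algebraMap ℚ ℂ)) {X : Matrix d d ℂ}
    (hX : X ∈ UP M) (hX0 : ∀ Y ∈ UP M, (X * Y).trace = 0) : X = 0 := by
  have hXb := UP_star hr hX
  have hXs : Cw w π * X.map (starRingEnd ℂ) * Cw w π ∈ UP M := by
    have hI0 : Complex.I ≠ 0 := Complex.I_ne_zero
    have e1 : Cw w π = (starRingEnd ℂ Complex.I) ^ w • Tc w π (Complex.I / starRingEnd ℂ Complex.I) := by
      rw [Cw_eq, hz_eq hI0]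
    have h3 := UP_torus hN hπ h2 hI0 hXb
    have e2 : Complex.I / starRingEnd ℂ Complex.I = -1 := by
      rw [Complex.conj_I, div_neg, div_self hI0]
    have e3 : ((-1 : ℂ))⁻¹ = -1 := by norm_num
    rw [e2, e3] at h3
    rw [e2] at e1
    rw [e1, smul_mul_assoc, smul_mul_smul_comm]
    exact Submodule.smul_mem _ _ h3
  rcases Nat.even_or_odd w with hw | hw
  · exact nd_even hV hw hπ h1 (UP_form hF hXb) (hX0 _ hXs)
  · exact nd_odd hV hw hπ h1 (UP_form hF hXb) (hX0 _ hXs)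

/-- projection to the span for the trace form -/
theorem UP_proj (hnd : ∀ X ∈ UP M, (∀ Y ∈ UP M, (X * Y).trace = 0) → X = 0) (Z : Matrix d d ℂ) :
    ∃ u ∈ UP M, ∀ Y ∈ UP M, (u * Y).trace = (Z * Y).trace := by
  let T : Matrix d d ℂ →ₗ[ℂ] Module.Dual ℂ (UP M) :=
    LinearMap.mk₂ ℂ (fun A (Y : UP M) => (A * (Y : Matrix d d ℂ)).trace)
      (fun A B Y => by rw [add_mul, trace_add])
      (fun c A Y => by rw [Matrix.smul_mul, trace_smul])
      (fun A Y Z => by rw [Submodule.coe_add, mul_add, trace_add])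
      (fun c A Y => by rw [Submodule.coe_smul, Matrix.mul_smul, trace_smul])
  have hinj : Function.Injective (T ∘ₗ (UP M).subtype) := by
    rw [injective_iff_map_eq_zero]
    intro X hX
    apply Subtype.ext
    apply hnd X X.2
    intro Y hY
    exact congrArg (fun f : Module.Dual ℂ (UP M) => f ⟨Y, hY⟩) hX
  have hsurj : Function.Surjective (T ∘ₗ (UP M).subtype) :=
    (LinearMap.injective_iff_surjective_of_finrank_eq_finrank
      (Subspace.dual_finrank_eq (K := ℂ) (V := UP M)).symm).mp hinj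
  obtain ⟨u, hu⟩ := hsurj (T Z)
  refine ⟨u, u.2, fun Y hY => ?_⟩
  exact congrArg (fun f : Module.Dual ℂ (UP M) => f ⟨Y, hY⟩) hu

/-- absolute irreducibility of the connected group generated by the unipotents -/
def AbsIrr (M : Set (Matrix d d ℂ)) : Prop :=
  ∀ A : Matrix d d ℂ, (∀ X : Matrix d d ℂ, IsNilpotent X → (∀ s : ℂ, ue X s ∈ zclosure ℂ ℂ M) →
    A * X = X * A) → ∃ c : ℂ, A = c • (1 : Matrix d d ℂ)

/-- the generator of the torus is in the span of the unipotents and the homotheties -/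
theorem phi_in (hV : PolHodge w E V) (hπ : Proj w E π) (h1 : ∀ p x, π p *ᵥ x ∈ V p)
    (h2 : ∀ p, ∀ x ∈ V p, π p *ᵥ x = x) (hM : ∀ a ∈ M, ∀ b ∈ M, a * b ∈ M)
    (hN : TorusNorm w V M) (hr : ∀ γ ∈ M, γ.map (starRingEnd ℂ) = γ)
    (hF : ∀ γ ∈ M, γᵀ * E.map (algebraMap ℚ ℂ) * γ = E.map (algebraMap ℚ ℂ)) (hA : AbsIrr M) :
    ∃ u ∈ UP M, ∃ c : ℂ, Phi w π = u + c • (1 : Matrix d d ℂ) := by
  have hnd : ∀ X ∈ UP M, (∀ Y ∈ UP M, (X * Y).trace = 0) → X = 0 := fun X hX hX0 =>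
    UP_nd hV hπ h1 h2 hN hr hF hX hX0
  obtain ⟨u, hu, htr⟩ := UP_proj hnd (Phi w π)
  obtain ⟨c, hc⟩ := hA (Phi w π - u) (by
    intro X hX hXs
    have hXU : X ∈ UP M := Submodule.subset_span ⟨hX, hXs⟩
    have h3 : (Phi w π - u) * X - X * (Phi w π - u) ∈ UP M := by
      have h4 : (Phi w π - u) * X - X * (Phi w π - u) =
          (Phi w π * X - X * Phi w π) - (u * X - X * u) := by
        rw [sub_mul, mul_sub]; abel
      rw [h4]
      exact Submodule.sub_mem _ (UP_phi hN hπ h2 hXU) (UP_br hM hu hXU)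
    have h4 := hnd _ h3 (by
      intro Y hY
      have h5 : ∀ D : Matrix d d ℂ, ((D * X - X * D) * Y).trace =
          (D * (X * Y - Y * X)).trace := by
        intro D
        rw [sub_mul, trace_sub, mul_sub, trace_sub, Matrix.mul_assoc D X Y, Matrix.mul_assoc X D Y,
          trace_mul_comm X (D * Y), Matrix.mul_assoc D Y X]
      have h6 := htr _ (UP_br hM hXU hY)
      rw [h5, sub_mul, trace_sub, h6, sub_self])
    exact sub_eq_zero.mp h4)
  exact ⟨u, hu, c, by rw [← hc, add_sub_cancel]⟩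

/-! ### Exponentials -/

/-- the span of the unipotents is in the Lie algebra of every group which contains them -/
theorem nil_lie {G : Set (Matrix d d ℂ)} (hmul : ∀ a ∈ G, ∀ b ∈ G, a * b ∈ G) {X : Matrix d d ℂ}
    (hX : IsNilpotent X) (hs : ∀ s : ℂ, ue X s ∈ G) : X ∈ lieOf G := by
  rw [mem_lieOf]
  intro p hp g hg
  rcases two_le_or hX with h0 | ⟨n, hn⟩
  · rw [h0, dr_zero, map_zero]
  obtain ⟨A, hA⟩ : ∃ A : Matrix d d ℂ[X], A = fun i j => ∑ k ∈ Finset.range (Fintype.card d),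
      C ((k.factorial : ℂ)⁻¹ * (g * X ^ k) i j) * Polynomial.X ^ k := ⟨_, rfl⟩
  have hAe : ∀ s : ℂ, A.map (Polynomial.eval s) = g * ue X s := by
    intro s
    ext i j
    rw [hA, Matrix.map_apply]
    unfold ue
    rw [Finset.mul_sum, Matrix.sum_apply, Polynomial.eval_finsetSum]
    apply Finset.sum_congr rfl
    intro k _
    rw [eval_mul, eval_C, eval_pow, eval_X, Matrix.mul_smul, Matrix.smul_apply, smul_eq_mul]
    ring
  have h1 : ∀ i j, (1 : ℂ[X]) * derivative (A i j) = ∑ k, X k j • A i k := by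
    intro i j
    have e1 : ∑ k, X k j • A i k = ∑ t ∈ Finset.range (Fintype.card d),
        C ((t.factorial : ℂ)⁻¹ * (g * X ^ (t + 1)) i j) * Polynomial.X ^ t := by
      rw [hA]
      simp only [Finset.smul_sum]
      rw [Finset.sum_comm]
      apply Finset.sum_congr rfl
      intro t _
      rw [pow_succ, ← Matrix.mul_assoc, Matrix.mul_apply, Finset.mul_sum, map_sum, Finset.sum_mul]
      apply Finset.sum_congr rfl
      intro k _
      rw [Polynomial.smul_eq_C_mul, map_mul, map_mul, map_mul]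
      ring
    have e2 : derivative (A i j) = ∑ t ∈ Finset.range (Fintype.card d - 1),
        C ((t.factorial : ℂ)⁻¹ * (g * X ^ (t + 1)) i j) * Polynomial.X ^ t := by
      have hc : Fintype.card d = (n + 1) + 1 := hn
      rw [hA]
      simp only
      rw [hc, Polynomial.derivative_sum, Finset.sum_range_succ', Nat.add_sub_cancel]
      have e0 : derivative (C (((Nat.factorial 0 : ℕ) : ℂ)⁻¹ * (g * X ^ 0) i j) *
          (Polynomial.X : ℂ[X]) ^ 0) = 0 := by
        rw [pow_zero (Polynomial.X : ℂ[X]), mul_one, derivative_C]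
      rw [e0, add_zero]
      apply Finset.sum_congr rfl
      intro t _
      rw [derivative_C_mul_X_pow, Nat.add_sub_cancel]
      congr 2
      rw [Nat.factorial_succ]
      have h5 : ((t.factorial : ℕ) : ℂ) ≠ 0 := Nat.cast_ne_zero.mpr (Nat.factorial_ne_zero t)
      have h6 : ((t : ℂ) + 1) ≠ 0 := by exact_mod_cast Nat.succ_ne_zero t
      push_cast
      field_simp
    rw [one_mul, e1, e2]
    have hc : Fintype.card d = (n + 1) + 1 := hn
    rw [hc, Nat.add_sub_cancel, Finset.sum_range_succ _ (n + 1), ← hc, pow_card hX, mul_zero,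
      Matrix.zero_apply, mul_zero, map_zero, zero_mul, add_zero]
  have h2 : cev A p = 0 := by
    apply poly_zero_of_eval
    intro s _
    rw [cev_eval, hAe]
    exact hp _ (hmul _ hg _ (hs s))
  have h3 := cev_deriv h1 p
  rw [h2, derivative_zero, mul_zero] at h3
  have h4 := cev_eval A 0 (dr X p)
  rw [← h3, hAe, ue_z hX, mul_one, eval_zero] at h4
  exact h4.symm

theorem one_lie {G : Set (Matrix d d ℂ)} (hmul : ∀ a ∈ G, ∀ b ∈ G, a * b ∈ G)
    (hs : ∀ c : ℂ, c ≠ 0 → c • (1 : Matrix d d ℂ) ∈ G) : (1 : Matrix d d ℂ) ∈ lieOf G := by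
  rw [mem_lieOf]
  intro p hp g hg
  have h1 : ∀ i j, (Polynomial.X : Polynomial ℂ) *
      Polynomial.derivative (lin (0 : Matrix d d ℂ) g i j) =
      ∑ k, (1 : Matrix d d ℂ) k j • lin (0 : Matrix d d ℂ) g i k := by
    intro i j
    rw [lin_deriv, lin_sum, mul_one, mul_one]
    simp [lin]
  have h2 : cev (lin (0 : Matrix d d ℂ) g) p = 0 := by
    apply poly_zero_of_eval
    intro t ht
    rw [cev_eval, lin_eval, zero_add]
    have h3 := hmul _ (hs t ht) _ hg
    rw [smul_mul_assoc, one_mul] at h3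
    exact hp _ h3
  have h3 := cev_deriv h1 p
  rw [h2, Polynomial.derivative_zero, mul_zero] at h3
  have h4 := cev_eval (lin (0 : Matrix d d ℂ) g) 1 (dr 1 p)
  rw [← h3, lin_eval, zero_add, one_smul, Polynomial.eval_zero] at h4
  exact h4.symm

/-- the torus is in every closed group whose Lie algebra contains its generator -/
theorem Tc_of_lie {G : Set (Matrix d d ℂ)} (hone : (1 : Matrix d d ℂ) ∈ G) (hπ : Proj w E π)
    (hL : Phi w π ∈ lieOf G) (t : ℂ) (p : MvPolynomial (d × d) ℂ) (hp : ∀ g ∈ G, pev g p = 0) :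
    pev (Tc w π t) p = 0 := by
  have h1 : ∀ i j, (Polynomial.X : Polynomial ℂ) * derivative (pc w π i j) =
      ∑ k, Phi w π k j • pc w π i k := by
    intro i j
    rw [pc_deriv, pc_sum]
    unfold pc
    apply Finset.sum_congr rfl
    intro q hq
    have hq' := Nat.lt_succ_iff.1 (Finset.mem_range.1 hq)
    have h2 : π q * Phi w π = (q : ℂ) • π q := by
      unfold Phi
      rw [hπ.sum_mul _ hq']
    change C (((q : ℂ) • π q) i j) * _ = C ((π q * Phi w π) i j) * _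
    rw [h2]
  have h2 : ∀ k : ℕ, ∃ q : MvPolynomial (d × d) ℂ, (∀ g ∈ G, pev g q = 0) ∧
      Polynomial.X ^ k * derivative^[k] (cev (pc w π) p) = cev (pc w π) q := by
    intro k
    induction k with
    | zero => exact ⟨p, hp, by rw [pow_zero, one_mul]; rfl⟩
    | succ k ih =>
      obtain ⟨q, hq, h⟩ := ih
      refine ⟨dr (Phi w π) q - (k : ℂ) • q, ?_, ?_⟩
      · intro g hg
        rw [map_sub, map_smul, hL q hq g hg, hq g hg, smul_zero, sub_zero]
      · have h3 := cev_deriv h1 q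
        rw [← h, derivative_mul] at h3
        rw [map_sub, map_smul, ← h3, ← h, Function.iterate_succ_apply']
        rcases k with _ | k
        · simp
        · rw [derivative_X_pow, Nat.add_sub_cancel, Polynomial.smul_eq_C_mul, map_natCast]
          ring
  have h3 : cev (pc w π) p = 0 := by
    apply Polynomial.eq_zero_of_hasseDeriv_eq_zero _ 1
    intro k
    obtain ⟨q, hq, h⟩ := h2 k
    have h4 := congrArg (Polynomial.eval 1) h
    rw [eval_mul, eval_pow, eval_X, one_pow, one_mul, cev_eval, pc_eval, hπ.Tc_one, hq 1 hone] at h4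
    have h5 : derivative^[k] (cev (pc w π) p) =
        (k.factorial : ℂ) • Polynomial.hasseDeriv k (cev (pc w π) p) := by
      have h6 := congrFun (Polynomial.factorial_smul_hasseDeriv (R := ℂ) (k := k)) (cev (pc w π) p)
      rw [← h6, Nat.cast_smul_eq_nsmul]
      rfl
    rw [h5, eval_smul, smul_eq_mul] at h4
    exact (mul_eq_zero.mp h4).resolve_left (Nat.cast_ne_zero.mpr (Nat.factorial_ne_zero k))
  rw [← pc_eval, ← cev_eval, h3, eval_zero]

/-- IRR -/
theorem irr_gen (hV : PolHodge w E V) (hM : ∀ a ∈ M, ∀ b ∈ M, a * b ∈ M)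
    (hN : TorusNorm w V M) (hr : ∀ γ ∈ M, γ.map (starRingEnd ℂ) = γ)
    (hF : ∀ γ ∈ M, γᵀ * E.map (algebraMap ℚ ℂ) * γ = E.map (algebraMap ℚ ℂ)) (hA : AbsIrr M)
    {I : Set (MvPolynomial (d × d) ℚ)} (hI : IsAlgSubgroup I)
    (hsc : ∀ c : ℂ, c ≠ 0 → c • (1 : Matrix d d ℂ) ∈ zeros I ℂ)
    (hun : ∀ u ∈ Uni M, u ∈ zeros I ℂ) {T : Matrix d d ℂ} (hT : T ∈ hodgeTorus w V) :
    T ∈ zeros I ℂ := by
  obtain ⟨π, hπ, h1, h2, h3⟩ := proj_of hV
  obtain ⟨u, hu, c, hc⟩ := phi_in hV hπ h1 h2 hM hN hr hF hA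
  have hL1 : ∀ X ∈ UP M, X ∈ lieOf (zeros I ℂ) := by
    intro X hX
    have hle : UP M ≤ lieOf (zeros I ℂ) := by
      unfold UP
      rw [Submodule.span_le]
      intro X hX
      apply nil_lie hI.2.1 hX.1
      intro s
      apply hun
      refine ⟨s • X, nil_smul hX.1 s, ?_, fun t => ?_⟩
      · unfold ue
        apply Finset.sum_congr rfl
        intro k _
        rw [_root_.smul_pow, smul_smul, one_pow, mul_one]
      · have : ue (s • X) t = ue X (t * s) := by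
          unfold ue
          apply Finset.sum_congr rfl
          intro k _
          rw [_root_.smul_pow, smul_smul, mul_pow, mul_assoc]
        rw [this]
        exact hX.2 _
    exact hle hX
  have hL : Phi w π ∈ lieOf (zeros I ℂ) := by
    rw [hc]
    exact Submodule.add_mem _ (hL1 u hu) (Submodule.smul_mem _ _ (one_lie hI.2.1 hsc))
  have hTc : ∀ t : ℂ, t ≠ 0 → Tc w π t ∈ zeros I ℂ := by
    intro t ht
    refine ⟨hπ.Tc_unit ht, fun p hp => ?_⟩
    have h4 := Tc_of_lie hI.1 hπ hL t (MvPolynomial.map (algebraMap ℚ ℂ) p) (by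
      intro g hg
      rw [pevC]
      exact hg.2 p hp)
    rwa [pevC] at h4
  obtain ⟨z, hz0, hTz⟩ := hT
  have hTe : T = hz w π z := by
    apply Matrix.ext_of_mulVec_single
    intro j
    have h4 : ∀ x : d → ℂ, T *ᵥ x = hz w π z *ᵥ x := by
      intro x
      have h5 : x = ∑ p ∈ Finset.range (w + 1), π p *ᵥ x := by
        rw [← sum_mulVec, hπ.sum, one_mulVec]
      rw [h5, mulVec_sum, mulVec_sum]
      apply Finset.sum_congr rfl
      intro p hp
      have hp' := Nat.lt_succ_iff.1 (Finset.mem_range.1 hp)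
      rw [hTz p hp' _ (h1 p x)]
      obtain ⟨z', hz', hTz'⟩ := hz_torus hπ h2 hz0
      unfold hz
      rw [mulVec_mulVec, hπ.mul_sum (fun p => z ^ p * (starRingEnd ℂ z) ^ (w - p)) hp', smul_mulVec]
      rfl
    exact h4 _
  have hc0 : starRingEnd ℂ z ≠ 0 := (_root_.map_ne_zero _).2 hz0
  rw [hTe, hz_eq hz0]
  have h5 := hI.2.1 _ (hsc _ (pow_ne_zero w hc0)) _ (hTc _ (div_ne_zero hz0 hc0))
  rwa [Matrix.smul_mul, one_mul] at h5

theorem Mo_mul (hmoa : MoaStmt) (F : Sys d) {P : Matrix d d ℂ} (hP : IsUnit P.det) :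
    ∀ a ∈ F.Mo P, ∀ b ∈ F.Mo P, a * b ∈ F.Mo P := by
  rintro _ ⟨g, hg, rfl⟩ _ ⟨g', hg', rfl⟩
  refine ⟨g' * g, (hmoa d F Set.univ).2.2.1 _ hg' _ hg, ?_⟩
  rw [transpose_mul]
  calc P * gᵀ * P⁻¹ * (P * g'ᵀ * P⁻¹) = P * gᵀ * (P⁻¹ * P) * g'ᵀ * P⁻¹ := by
        simp only [Matrix.mul_assoc]
    _ = _ := by rw [nonsing_inv_mul P hP, mul_one, Matrix.mul_assoc P]

/-- IRR for a family -/
theorem irr (hmoa : MoaStmt) (F : Sys d) {P : Matrix d d ℂ} (hP : IsUnit P.det) (hint : F.IntM P)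
    (hV : PolHodge w E V) (hinv : F.InvM P E) (hA : AbsIrr (F.Mo P))
    (hN : TorusNorm w V (F.Mo P)) : hodgeTorus w V ⊆ F.Gm P ℂ := by
  intro T hT I hI hsc hun
  refine irr_gen hV (Mo_mul hmoa F hP) hN ?_ hinv hA hI hsc hun hT
  intro γ hγ
  obtain ⟨A, rfl⟩ := hint γ hγ
  ext i j
  simp

end Pool.Agent.MT100A.H78
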