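import Pool.Agent.MT100A.Stmts

/-! MT100-A, TEU: a form with a finite orbit under `M` is invariant under the unipotent one parameter
subgroups of the Zariski closure of `M`. -/

set_option autoImplicit false

namespace Pool.Agent.MT100A.H78

open Matrix Polynomial Pool.Agent.MT100 Pool.Agent.MT100G Pool.Agent.Helper78_MT

variable {d : Type} [Fintype d] [DecidableEq d]

theorem ue_zero (X : Matrix d d ℂ) (hd : 0 < Fintype.card d) : ue X 0 = 1 := by
  unfold ue
  rw [Finset.sum_eq_single 0]
  · simp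
  · intro t _ ht
    rw [zero_pow ht, mul_zero, zero_smul]
  · intro h
    exact absurd (Finset.mem_range.mpr hd) h

theorem tA_one {k : ℕ} (t : (Fin k → d) → ℂ) : tA t (1 : Matrix d d ℂ) = t := by
  funext α
  unfold tA
  rw [Finset.sum_eq_single α]
  · simp
  · intro β _ hβ
    obtain ⟨j, hj⟩ : ∃ j, β j ≠ α j := by
      by_contra hcon
      push Not at hcon
      exact hβ (funext hcon)
    rw [Finset.prod_eq_zero (Finset.mem_univ j), mul_zero]
    exact Matrix.one_apply_ne hj
  · intro h
    exact absurd (Finset.mem_univ _) h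

/-- TEU -/
theorem teu : TeuStmt := by
  intro d _ _ M k t hfin X hX hu s
  rcases Nat.eq_zero_or_pos (Fintype.card d) with hd | hd
  · have he : IsEmpty d := Fintype.card_eq_zero_iff.mp hd
    have h1 : ue X s = 1 := by
      ext i
      exact (he.false i).elim
    rw [h1, tA_one]
  funext α
  -- the coordinate
  obtain ⟨f, hf⟩ : ∃ f : MvPolynomial (d × d) ℂ, ∀ g : Matrix d d ℂ, pev g f = tA t g α := by
    refine ⟨∑ β, MvPolynomial.C (t β) * ∏ j, MvPolynomial.X (β j, α j), ?_⟩
    intro g
    unfold tA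
    rw [map_sum]
    apply Finset.sum_congr rfl
    intro β _
    rw [map_mul, pev_C, map_prod]
    congr 1
    apply Finset.prod_congr rfl
    intro j _
    rw [pev_X]
  -- its values
  have hv : ((fun s : (Fin k → d) → ℂ => s α) '' {s | ∃ γ ∈ M, s = tA t γ}).Finite := hfin.image _
  obtain ⟨vals, hvals⟩ : ∃ vals : Finset ℂ, ∀ γ ∈ M, tA t γ α ∈ vals := by
    refine ⟨hv.toFinset, fun γ hγ => ?_⟩
    rw [Set.Finite.mem_toFinset]
    exact ⟨tA t γ, ⟨γ, hγ, rfl⟩, rfl⟩
  have hQ : ∀ s : ℂ, ∏ v ∈ vals, (tA t (ue X s) α - v) = 0 := by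
    intro s
    have h1 := (hu s).2 (∏ v ∈ vals, (f - MvPolynomial.C v)) (by
      intro γ hγ
      rw [map_prod]
      apply Finset.prod_eq_zero (hvals γ hγ)
      rw [map_sub, pev_C, hf]
      exact sub_self _)
    rw [map_prod] at h1
    rw [← h1]
    apply Finset.prod_congr rfl
    intro v _
    rw [map_sub, pev_C, hf]
    rfl
  -- the polynomial in `s`
  obtain ⟨p, hp⟩ : ∃ p : ℂ[X], ∀ s : ℂ, p.eval s = tA t (ue X s) α := by
    refine ⟨∑ β, C (t β) * ∏ j, ∑ e ∈ Finset.range (Fintype.card d),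
      C (((e.factorial : ℂ)⁻¹) * (X ^ e) (β j) (α j)) * Polynomial.X ^ e, ?_⟩
    intro s
    unfold tA
    rw [Polynomial.eval_finsetSum]
    apply Finset.sum_congr rfl
    intro β _
    rw [Polynomial.eval_mul, Polynomial.eval_C, Polynomial.eval_prod]
    congr 1
    apply Finset.prod_congr rfl
    intro j _
    rw [Polynomial.eval_finsetSum]
    unfold ue
    rw [Matrix.sum_apply]
    apply Finset.sum_congr rfl
    intro e _
    rw [Polynomial.eval_mul, Polynomial.eval_C, Polynomial.eval_pow, Polynomial.eval_X,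
      Matrix.smul_apply, smul_eq_mul]
    ring
  have h0 : ∏ v ∈ vals, (p - C v) = 0 := by
    apply Polynomial.funext
    intro s
    rw [Polynomial.eval_prod, Polynomial.eval_zero, ← hQ s]
    apply Finset.prod_congr rfl
    intro v _
    rw [Polynomial.eval_sub, Polynomial.eval_C, hp]
  obtain ⟨v, -, hv⟩ := Finset.prod_eq_zero_iff.mp h0
  have hpv : p = C v := sub_eq_zero.mp hv
  have h1 : tA t (ue X s) α = v := by rw [← hp, hpv, Polynomial.eval_C]
  have h2 : tA t (ue X 0) α = v := by rw [← hp, hpv, Polynomial.eval_C]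
  rw [h1, ← h2, ue_zero X hd, tA_one]

end Pool.Agent.MT100A.H78
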