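import Pool.Agent.MT100A.StmtsL

/-! MT100-A, module CUR: one parameter groups in closed groups. -/

set_option autoImplicit false
set_option linter.unusedSectionVars false
set_option linter.unusedSimpArgs false

namespace Pool.Agent.MT100A.H78

open Matrix Polynomial Pool.Agent.MT100 Pool.Agent.MT100G Pool.Agent.Helper78_MT Pool.Agent.MTL

variable {d : Type} [Fintype d] [DecidableEq d]

/-! ### The torus -/

section torus

variable {n : ℕ} {π : Fin n → Matrix d d ℂ} {m : Fin n → ℤ}

/-- the curve `exp (s Φ)` -/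
noncomputable def tcur (π : Fin n → Matrix d d ℂ) (m : Fin n → ℤ) (s : ℂ) : Matrix d d ℂ :=
  ∑ a, Complex.exp ((m a : ℂ) * s) • π a

theorem tcur_mul (h1 : ∀ a, π a * π a = π a) (h2 : ∀ a b, a ≠ b → π a * π b = 0) (s : ℂ) :
    tcur π m s * ∑ a, (m a : ℂ) • π a = ∑ a, ((m a : ℂ) * Complex.exp ((m a : ℂ) * s)) • π a := by
  unfold tcur
  rw [Finset.sum_mul]
  apply Finset.sum_congr rfl
  intro a _
  rw [Finset.mul_sum, Finset.sum_eq_single a]
  · rw [Matrix.smul_mul, Matrix.mul_smul, h1, smul_smul, mul_comm]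
  · intro b _ hb
    rw [Matrix.smul_mul, Matrix.mul_smul, h2 a b (Ne.symm hb), smul_zero, smul_zero]
  · intro h
    exact absurd (Finset.mem_univ a) h

theorem tcur_deriv (h1 : ∀ a, π a * π a = π a) (h2 : ∀ a b, a ≠ b → π a * π b = 0) (s : ℂ) (i j : d) :
    HasDerivAt (fun s => tcur π m s i j)
      (∑ k, (∑ a, (m a : ℂ) • π a) k j * tcur π m s i k) s := by
  have e1 : ∑ k, (∑ a, (m a : ℂ) • π a) k j * tcur π m s i k =
      (tcur π m s * ∑ a, (m a : ℂ) • π a) i j := by
    rw [Matrix.mul_apply]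
    apply Finset.sum_congr rfl
    intro k _
    ring
  rw [e1, tcur_mul h1 h2, Matrix.sum_apply]
  have e2 : (fun s => tcur π m s i j) = fun s => ∑ a, Complex.exp ((m a : ℂ) * s) * π a i j := by
    funext s
    unfold tcur
    rw [Matrix.sum_apply]
    rfl
  rw [e2]
  apply HasDerivAt.fun_sum
  intro a _
  have h3 : HasDerivAt (fun s : ℂ => (m a : ℂ) * s) (m a : ℂ) s := by
    have := (hasDerivAt_id s).const_mul (m a : ℂ)
    rwa [mul_one] at this
  have h4 := h3.cexp.mul_const (π a i j)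
  have e3 : ((m a : ℂ) * Complex.exp ((m a : ℂ) * s)) • π a = fun i j =>
      Complex.exp ((m a : ℂ) * s) * (m a : ℂ) * π a i j := by
    ext i j
    rw [Matrix.smul_apply, smul_eq_mul]
    ring
  rw [e3]
  exact h4

theorem tcur_pev (h1 : ∀ a, π a * π a = π a) (h2 : ∀ a b, a ≠ b → π a * π b = 0)
    (p : MvPolynomial (d × d) ℂ) (s : ℂ) :
    HasDerivAt (fun s => pev (tcur π m s) p)
      (pev (tcur π m s) (dr (∑ a, (m a : ℂ) • π a) p)) s := by
  induction p using MvPolynomial.induction_on with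
  | C c =>
    have e1 : (fun s => pev (tcur π m s) (MvPolynomial.C c : MvPolynomial (d × d) ℂ)) = fun _ => c := by
      funext s
      simp [pev]
    rw [e1]
    have e2 : dr (∑ a, (m a : ℂ) • π a) (MvPolynomial.C c : MvPolynomial (d × d) ℂ) = 0 := by
      simp
    rw [e2, map_zero]
    exact hasDerivAt_const s c
  | add p q hp hq =>
    have e1 : (fun s => pev (tcur π m s) (p + q)) = fun s => pev (tcur π m s) p +
        pev (tcur π m s) q := by
      funext s
      rw [map_add]
    rw [e1, map_add, map_add]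
    exact hp.fun_add hq
  | mul_X p ij hp =>
    have e1 : (fun s => pev (tcur π m s) (p * MvPolynomial.X ij)) = fun s => pev (tcur π m s) p *
        tcur π m s ij.1 ij.2 := by
      funext s
      rw [map_mul]
      simp [pev]
    have e2 : pev (tcur π m s) (dr (∑ a, (m a : ℂ) • π a) (p * MvPolynomial.X ij)) =
        pev (tcur π m s) (dr (∑ a, (m a : ℂ) • π a) p) * tcur π m s ij.1 ij.2 +
          pev (tcur π m s) p * ∑ k, (∑ a, (m a : ℂ) • π a) k ij.2 * tcur π m s ij.1 k := by
      rw [Derivation.leibniz, map_add, smul_eq_mul, smul_eq_mul, map_mul, map_mul, dr_X, map_sum]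
      have e3 : pev (tcur π m s) (MvPolynomial.X ij : MvPolynomial (d × d) ℂ) =
          tcur π m s ij.1 ij.2 := by simp [pev]
      have e4 : ∀ k, pev (tcur π m s) ((∑ a, (m a : ℂ) • π a) k ij.2 •
          (MvPolynomial.X (ij.1, k) : MvPolynomial (d × d) ℂ)) =
          (∑ a, (m a : ℂ) • π a) k ij.2 * tcur π m s ij.1 k := by
        intro k
        rw [map_smul, smul_eq_mul]
        simp [pev]
      rw [e3, Finset.sum_congr rfl (fun k _ => e4 k)]
      ring
    rw [e1, e2]
    exact hp.fun_mul (tcur_deriv h1 h2 s ij.1 ij.2)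

theorem tcur_iter (h1 : ∀ a, π a * π a = π a) (h2 : ∀ a b, a ≠ b → π a * π b = 0) (k : ℕ) :
    ∀ p : MvPolynomial (d × d) ℂ, iteratedDeriv k (fun s => pev (tcur π m s) p) =
      fun s => pev (tcur π m s) ((dr (∑ a, (m a : ℂ) • π a))^[k] p) := by
  induction k with
  | zero =>
    intro p
    rw [iteratedDeriv_zero]
    rfl
  | succ k ih =>
    intro p
    rw [iteratedDeriv_succ']
    have e1 : deriv (fun s => pev (tcur π m s) p) =
        fun s => pev (tcur π m s) (dr (∑ a, (m a : ℂ) • π a) p) := by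
      funext s
      exact (tcur_pev h1 h2 p s).deriv
    rw [e1, ih, Function.iterate_succ_apply]

theorem tcur_zero (h3 : ∑ a, π a = 1) : tcur π m 0 = 1 := by
  unfold tcur
  rw [← h3]
  apply Finset.sum_congr rfl
  intro a _
  rw [mul_zero, Complex.exp_zero, one_smul]

theorem tcur_mem {G : Set (Matrix d d ℂ)} (hone : (1 : Matrix d d ℂ) ∈ G)
    (h1 : ∀ a, π a * π a = π a) (h2 : ∀ a b, a ≠ b → π a * π b = 0) (h3 : ∑ a, π a = 1)
    (hL : ∑ a, (m a : ℂ) • π a ∈ lieOf G) (s : ℂ) (p : MvPolynomial (d × d) ℂ)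
    (hp : ∀ g ∈ G, pev g p = 0) : pev (tcur π m s) p = 0 := by
  have h4 : ∀ k, ∀ g ∈ G, pev g ((dr (∑ a, (m a : ℂ) • π a))^[k] p) = 0 := by
    intro k
    induction k with
    | zero => exact hp
    | succ k ih =>
      intro g hg
      rw [Function.iterate_succ_apply']
      exact hL _ ih g hg
  have h5 : Differentiable ℂ (fun s => pev (tcur π m s) p) :=
    fun s => (tcur_pev h1 h2 p s).differentiableAt
  have h6 := Complex.taylorSeries_eq_of_entire' 0 s h5
  rw [← h6]
  have h7 : ∀ k : ℕ, (k.factorial : ℂ)⁻¹ * iteratedDeriv k (fun s => pev (tcur π m s) p) 0 *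
      (s - 0) ^ k = 0 := by
    intro k
    rw [tcur_iter h1 h2]
    simp only
    rw [tcur_zero h3, h4 k 1 hone, mul_zero, zero_mul]
  rw [tsum_congr h7, tsum_zero]

theorem torus_cur {G : Set (Matrix d d ℂ)} (hone : (1 : Matrix d d ℂ) ∈ G)
    (h1 : ∀ a, π a * π a = π a) (h2 : ∀ a b, a ≠ b → π a * π b = 0) (h3 : ∑ a, π a = 1)
    (hL : ∑ a, (m a : ℂ) • π a ∈ lieOf G) (x : ℂ) (hx : x ≠ 0) :
    ∑ a, x ^ m a • π a ∈ zclosure ℂ ℂ G := by
  have hmul : ∀ y z : ℂ, (∑ a, (y ^ m a) • π a) * ∑ a, (z ^ m a) • π a =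
      ∑ a, (y ^ m a * z ^ m a) • π a := by
    intro y z
    rw [Finset.sum_mul]
    apply Finset.sum_congr rfl
    intro a _
    rw [Finset.mul_sum, Finset.sum_eq_single a]
    · rw [Matrix.smul_mul, Matrix.mul_smul, h1, smul_smul]
    · intro b _ hb
      rw [Matrix.smul_mul, Matrix.mul_smul, h2 a b (Ne.symm hb), smul_zero, smul_zero]
    · intro h
      exact absurd (Finset.mem_univ a) h
  refine ⟨?_, ?_⟩
  · have e1 : (∑ a, (x ^ m a) • π a) * ∑ a, ((x⁻¹) ^ m a) • π a = 1 := by
      rw [hmul, ← h3]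
      apply Finset.sum_congr rfl
      intro a _
      rw [← mul_zpow, mul_inv_cancel₀ hx, _root_.one_zpow, one_smul]
    exact IsUnit.of_mul_eq_one _ (by rw [← det_mul, e1, det_one])
  · intro p hp
    have h4 := tcur_mem hone h1 h2 h3 hL (Complex.log x) p hp
    have e1 : tcur π m (Complex.log x) = ∑ a, x ^ m a • π a := by
      unfold tcur
      apply Finset.sum_congr rfl
      intro a _
      rw [Complex.exp_int_mul, Complex.exp_log hx]
    rwa [e1] at h4

end torus

/-! ### Unipotents -/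

section unip

variable {U : Matrix d d ℂ}

/-- the curve `U ^ t` -/
noncomputable def ucur (U : Matrix d d ℂ) : Matrix d d ℂ[X] := fun i j =>
  ∑ k ∈ Finset.range (Fintype.card d), C ((k.factorial : ℂ)⁻¹ * ((U - 1) ^ k) i j) *
    descPochhammer ℂ k

theorem ucur_nat (hU : IsNilpotent (U - 1)) (n : ℕ) :
    (ucur U).map (Polynomial.eval (n : ℂ)) = U ^ n := by
  have h0 : (U - 1) ^ Fintype.card d = 0 := pow_card hU
  have e1 : U ^ n = ∑ k ∈ Finset.range (n + 1), ((n.choose k : ℕ) : ℂ) • (U - 1) ^ k := by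
    have h1 : U = (U - 1) + 1 := by rw [sub_add_cancel]
    have h2 := (Commute.one_right (U - 1)).add_pow n
    rw [← h1] at h2
    rw [h2]
    apply Finset.sum_congr rfl
    intro k _
    rw [one_pow, mul_one, Nat.cast_smul_eq_nsmul, nsmul_eq_mul]
    exact (Nat.cast_commute _ _).eq.symm
  have e2 : (ucur U).map (Polynomial.eval (n : ℂ)) =
      ∑ k ∈ Finset.range (Fintype.card d), ((n.choose k : ℕ) : ℂ) • (U - 1) ^ k := by
    ext i j
    rw [Matrix.map_apply, Matrix.sum_apply]
    unfold ucur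
    rw [Polynomial.eval_finsetSum]
    apply Finset.sum_congr rfl
    intro k _
    rw [eval_mul, eval_C, descPochhammer_eval_eq_descFactorial, Matrix.smul_apply, smul_eq_mul,
      Nat.descFactorial_eq_factorial_mul_choose]
    have h5 : ((k.factorial : ℕ) : ℂ) ≠ 0 := Nat.cast_ne_zero.mpr (Nat.factorial_ne_zero k)
    push_cast
    field_simp
  rw [e1, e2]
  obtain ⟨N, hN⟩ : ∃ N, N = max (n + 1) (Fintype.card d) := ⟨_, rfl⟩
  have e3 : ∑ k ∈ Finset.range (n + 1), ((n.choose k : ℕ) : ℂ) • (U - 1) ^ k =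
      ∑ k ∈ Finset.range N, ((n.choose k : ℕ) : ℂ) • (U - 1) ^ k := by
    apply Finset.sum_subset
    · rw [hN]
      exact Finset.range_mono (le_max_left _ _)
    · intro k _ hk
      rw [Finset.mem_range, not_lt] at hk
      rw [Nat.choose_eq_zero_of_lt (by omega), Nat.cast_zero, zero_smul]
  have e4 : ∑ k ∈ Finset.range (Fintype.card d), ((n.choose k : ℕ) : ℂ) • (U - 1) ^ k =
      ∑ k ∈ Finset.range N, ((n.choose k : ℕ) : ℂ) • (U - 1) ^ k := by
    apply Finset.sum_subset
    · rw [hN]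
      exact Finset.range_mono (le_max_right _ _)
    · intro k _ hk
      rw [Finset.mem_range, not_lt] at hk
      rw [pow_eq_zero_of_le hk h0, smul_zero]
  rw [e3, e4]

theorem poly_eq_of_nat {f g : ℂ[X]} (h : ∀ n : ℕ, f.eval (n : ℂ) = g.eval (n : ℂ)) : f = g := by
  apply Polynomial.eq_of_infinite_eval_eq
  apply Set.Infinite.mono (s := Set.range (fun n : ℕ => (n : ℂ)))
  · rintro _ ⟨n, rfl⟩
    exact h n
  · exact Set.infinite_range_of_injective Nat.cast_injective

theorem ucur_add_nat (hU : IsNilpotent (U - 1)) (s : ℂ) (n : ℕ) (i j : d) :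
    (ucur U i j).eval (s + n) = ∑ k, (ucur U i k).eval s * (ucur U k j).eval (n : ℂ) := by
  have h1 : (ucur U i j).comp (X + C (n : ℂ)) = ∑ k, ucur U i k * C ((ucur U k j).eval (n : ℂ)) := by
    apply poly_eq_of_nat
    intro m
    rw [eval_comp, eval_add, eval_X, eval_C, Polynomial.eval_finsetSum]
    have h2 := ucur_nat hU (m + n)
    rw [pow_add, ← ucur_nat hU m, ← ucur_nat hU n] at h2
    have h3 := congrFun (congrFun h2 i) j
    rw [Matrix.map_apply, Matrix.mul_apply] at h3
    push_cast at h3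
    rw [h3]
    apply Finset.sum_congr rfl
    intro k _
    rw [eval_mul, eval_C]
    rfl
  have h2 := congrArg (Polynomial.eval s) h1
  rw [eval_comp, eval_add, eval_X, eval_C, Polynomial.eval_finsetSum] at h2
  rw [h2]
  apply Finset.sum_congr rfl
  intro k _
  rw [eval_mul, eval_C]

theorem ucur_add (hU : IsNilpotent (U - 1)) (s : ℂ) (i j : d) :
    (ucur U i j).comp (C s + X) = ∑ k, C ((ucur U i k).eval s) * ucur U k j := by
  apply poly_eq_of_nat
  intro n
  rw [eval_comp, eval_add, eval_X, eval_C, Polynomial.eval_finsetSum, ucur_add_nat hU]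
  apply Finset.sum_congr rfl
  intro k _
  rw [eval_mul, eval_C]

theorem ucur_deriv (hU : IsNilpotent (U - 1)) (i j : d) :
    derivative (ucur U i j) = ∑ k, (derivative (ucur U k j)).eval 0 • ucur U i k := by
  apply poly_eq_of_nat
  intro n
  have h1 : (derivative ((ucur U i j).comp (C (n : ℂ) + X))).eval 0 =
      (derivative (∑ k, C ((ucur U i k).eval (n : ℂ)) * ucur U k j)).eval 0 := by
    rw [ucur_add hU]
  rw [derivative_comp, derivative_add, derivative_C, derivative_X, zero_add, one_mul, eval_comp,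
    eval_add, eval_C, eval_X, add_zero, Polynomial.derivative_sum, Polynomial.eval_finsetSum] at h1
  rw [h1, Polynomial.eval_finsetSum]
  apply Finset.sum_congr rfl
  intro k _
  rw [derivative_C_mul, eval_mul, eval_C, eval_smul, smul_eq_mul, mul_comm]

theorem desc_neg_one (k : ℕ) : (descPochhammer ℂ k).eval (-1) = (-1) ^ k * (k.factorial : ℂ) := by
  induction k with
  | zero => simp
  | succ k ih =>
    rw [descPochhammer_succ_right, eval_mul, ih, Nat.factorial_succ]
    simp only [eval_sub, eval_X, eval_natCast]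
    push_cast
    ring

theorem desc_deriv (k : ℕ) : (derivative (descPochhammer ℂ (k + 1))).eval 0 =
    (-1) ^ k * (k.factorial : ℂ) := by
  rw [descPochhammer_succ_left, derivative_mul, derivative_X, one_mul, eval_add, eval_mul, eval_X,
    zero_mul, add_zero, eval_comp, eval_sub, eval_X, eval_one, zero_sub, desc_neg_one]

theorem ucur_lg (hU : IsNilpotent (U - 1)) (k j : d) :
    (derivative (ucur U k j)).eval 0 = lg U k j := by
  have h0 : (U - 1) ^ Fintype.card d = 0 := pow_card hU
  have : Nonempty d := ⟨k⟩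
  obtain ⟨c, hc⟩ : ∃ c, Fintype.card d = c + 1 :=
    Nat.exists_eq_succ_of_ne_zero (Fintype.card_ne_zero (α := d))
  unfold ucur lg
  rw [Polynomial.derivative_sum, Polynomial.eval_finsetSum, Matrix.sum_apply, hc,
    Finset.sum_range_succ', Finset.sum_range_succ, ← hc, h0, smul_zero, Matrix.zero_apply, add_zero]
  have e0 : (derivative (C (((Nat.factorial 0 : ℕ) : ℂ)⁻¹ * ((U - 1) ^ 0 : Matrix d d ℂ) k j) *
      descPochhammer ℂ 0)).eval 0 = 0 := by
    rw [descPochhammer_zero, mul_one, derivative_C, eval_zero]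
  rw [e0, add_zero]
  apply Finset.sum_congr rfl
  intro t _
  rw [derivative_C_mul, eval_mul, eval_C, desc_deriv, Matrix.smul_apply, smul_eq_mul,
    Nat.factorial_succ]
  have h5 : ((t.factorial : ℕ) : ℂ) ≠ 0 := Nat.cast_ne_zero.mpr (Nat.factorial_ne_zero t)
  have h6 : ((t : ℂ) + 1) ≠ 0 := by exact_mod_cast Nat.succ_ne_zero t
  push_cast
  field_simp

theorem unip_cur {G : Set (Matrix d d ℂ)} (hone : (1 : Matrix d d ℂ) ∈ G)
    (hU : IsNilpotent (U - 1)) (hL : lg U ∈ lieOf G) : U ∈ zclosure ℂ ℂ G := by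
  refine ⟨?_, ?_⟩
  · have h1 : U = 1 + (U - 1) := by rw [add_sub_cancel]
    have h2 : IsUnit U := by
      rw [h1]
      exact hU.isUnit_one_add
    exact (isUnit_iff_isUnit_det _).1 h2
  · intro p hp
    have h1 : ∀ i j, (1 : ℂ[X]) * derivative (ucur U i j) = ∑ k, lg U k j • ucur U i k := by
      intro i j
      rw [one_mul, ucur_deriv hU]
      apply Finset.sum_congr rfl
      intro k _
      rw [ucur_lg hU]
    have h2 : ∀ k : ℕ, ∃ q : MvPolynomial (d × d) ℂ, (∀ g ∈ G, pev g q = 0) ∧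
        derivative^[k] (cev (ucur U) p) = cev (ucur U) q := by
      intro k
      induction k with
      | zero => exact ⟨p, hp, rfl⟩
      | succ k ih =>
        obtain ⟨q, hq, h⟩ := ih
        refine ⟨dr (lg U) q, hL q hq, ?_⟩
        have h3 := cev_deriv h1 q
        rw [one_mul] at h3
        rw [Function.iterate_succ_apply', h, h3]
    have h3 : cev (ucur U) p = 0 := by
      apply poly_zero_of_deriv
      intro k
      obtain ⟨q, hq, h⟩ := h2 k
      have h4 := ucur_nat hU 0
      rw [pow_zero, Nat.cast_zero] at h4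
      rw [h, cev_eval, h4]
      exact hq 1 hone
    have h4 := ucur_nat hU 1
    rw [pow_one, Nat.cast_one] at h4
    have h5 := cev_eval (ucur U) 1 p
    rw [h3, eval_zero, h4] at h5
    exact h5.symm

end unip

/-- CUR -/
theorem cur : CurStmt := by
  intro d _ _ G hone
  refine ⟨?_, ?_⟩
  · intro n π m h1 h2 h3 hL x hx
    exact torus_cur hone h1 h2 h3 hL x hx
  · intro U hU hL
    exact unip_cur hone hU hL

end Pool.Agent.MT100A.H78
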