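import Pool.Agent.MT100A.Stmts
import Pool.Agent.Helper47_MT100G.Fps
import Pool.Agent.Helper78_MT.Poly

/-! MT100-A, module FSA: formal relations between the translated fundamental matrices persist under the
product of the Zariski closures of the monodromy groups (port of `Helper47_MT100G/Fps.lean`). -/

set_option autoImplicit false

namespace Pool.Agent.MT100A.H78

open Matrix Polynomial Pool.Agent.MT100 Pool.Agent.MT100G Pool.Agent.Helper78_MT
open Pool.Agent.Helper65MT100 Pool.Agent.MT100G.H47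

/-! ### the value of the solution at the translated point -/

theorem tv_eqA (h1 : BasStmt) (h2 : VagStmt) {d : Type} [Fintype d] [DecidableEq d] (F : Sys d)
    (κ : ℕ) : ∀ᶠ w : ℝ in Filter.atTop,
      YH F.H F.N ((w : ℂ) - κ) = F.tv κ w * eN F.N (-(Complex.log w)) := by
  obtain ⟨R, hR, -, hB⟩ := h1 d F.H F.K F.N F.q F.B F.sys
  have hV := h2 d F.H F.N F.sys.nil F.sys.gH X (by rw [natDegree_X]; exact one_pos)
    (by rw [leadingCoeff_X]; exact one_pos) κ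
  filter_upwards [hV, Filter.eventually_gt_atTop (R + κ), Filter.eventually_gt_atTop 0]
    with w hw hwR hw0
  have hpv : pv X (w - κ) = w - κ := by
    unfold pv
    rw [Polynomial.map_X, eval_X]
  have hb := hB (w - κ) (by linarith)
  rw [hpv, natDegree_X, leadingCoeff_X, Nat.cast_one, one_mul, Rat.cast_one, Real.log_one,
    add_zero] at hw
  rw [hw, Matrix.map_mul, eN_map] at hb
  have hc : ((w : ℂ) - κ) = (((w - κ : ℝ)) : ℂ) := by push_cast; ring
  rw [hc, hb, map_neg]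
  have hl : (algebraMap ℝ ℂ) (Real.log w) = Complex.log w := by
    rw [← Complex.ofReal_log hw0.le]
    rfl
  rw [hl]
  rfl

theorem tg_abA (h4 : EvaStmt) {d : Type} [Fintype d] [DecidableEq d] (F : Sys d)
    (κ : ℕ) (i j : d) : ∀ᶠ w : ℝ in Filter.atTop, Helper65MT100.Ab (F.T κ i j) w⁻¹ := by
  obtain ⟨K, N, q, B, hG⟩ := MT100.H27.trg d F.H F.K F.N F.q F.B F.sys X
    (by rw [natDegree_X]; exact one_pos) κ
  obtain ⟨δ, hδ, hs⟩ := h4.1 _ (hG.gH i j)
  have ht : Filter.Tendsto (fun w : ℝ => w⁻¹) Filter.atTop (nhds 0) := tendsto_inv_atTop_zero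
  filter_upwards [ht.eventually (Metric.ball_mem_nhds (0 : ℝ) hδ)] with w hw
  have hw' : |w⁻¹| < δ := by
    have := Metric.mem_ball.mp hw
    rwa [Real.dist_eq, sub_zero] at this
  exact hs _ hw'

theorem rel_evA (h4 : EvaStmt) {d : Type} [Fintype d] [DecidableEq d] (F : Sys d)
    {ι : Type} [Fintype ι] [DecidableEq ι] (κ : ι → ℕ) (k : ℕ)
    (p : (ι × Fin k → d) → (ι × Fin k → d) → ℚ[X])
    (hp : ∑ β, ∑ α, ((p β α : ℚ[X]) : PowerSeries ℚ) * ∏ s, F.T (κ s.1) (β s) (α s) = 0) :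
    ∀ᶠ w : ℝ in Filter.atTop, ∑ β, ∑ α, (p β α).eval₂ (algebraMap ℚ ℂ) ((w : ℂ)⁻¹) *
      ∏ s, F.tv (κ s.1) w (β s) (α s) = 0 := by
  have hE : E3 := fun f g x hf hg => h4.2.2.1 f g x hf hg
  have hA : ∀ᶠ w : ℝ in Filter.atTop, ∀ (i : ι) (a b : d),
      Helper65MT100.Ab (F.T (κ i) a b) w⁻¹ := by
    rw [Filter.eventually_all]
    intro i
    rw [Filter.eventually_all]
    intro a
    rw [Filter.eventually_all]
    intro b
    exact tg_abA h4 F (κ i) a b
  filter_upwards [hA] with w hw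
  have h1 : ∀ β α : ι × Fin k → d, Helper65MT100.Ab (((p β α : ℚ[X]) : PowerSeries ℚ) *
      ∏ s, F.T (κ s.1) (β s) (α s)) w⁻¹ ∧ ev (((p β α : ℚ[X]) : PowerSeries ℚ) *
      ∏ s, F.T (κ s.1) (β s) (α s)) w⁻¹ = ((p β α).map (algebraMap ℚ ℝ)).eval w⁻¹ *
        ∏ s, ev (F.T (κ s.1) (β s) (α s)) w⁻¹ := by
    intro β α
    have h2 := prod_ev hE Finset.univ (fun s : ι × Fin k => F.T (κ s.1) (β s) (α s))
      (x := w⁻¹) (fun s _ => hw s.1 (β s) (α s))
    have h3 := hE _ _ w⁻¹ (ab_poly (p β α) w⁻¹) h2.1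
    refine ⟨h3.1, ?_⟩
    rw [h3.2.2.2, h2.2, h4.2.1]
  have h2 := fun β : ι × Fin k → d => sum_ev hE Finset.univ
    (fun α : ι × Fin k → d => ((p β α : ℚ[X]) : PowerSeries ℚ) *
      ∏ s, F.T (κ s.1) (β s) (α s)) (x := w⁻¹) (fun α _ => (h1 β α).1)
  have h3 := sum_ev hE Finset.univ (fun β : ι × Fin k → d => ∑ α : ι × Fin k → d,
    ((p β α : ℚ[X]) : PowerSeries ℚ) * ∏ s, F.T (κ s.1) (β s) (α s)) (x := w⁻¹)
    (fun β _ => (h2 β).1)
  rw [hp, ev_zero] at h3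
  have h5 : (0 : ℝ) = ∑ β : ι × Fin k → d, ∑ α : ι × Fin k → d,
      ((p β α).map (algebraMap ℚ ℝ)).eval w⁻¹ *
        ∏ s, ev (F.T (κ s.1) (β s) (α s)) w⁻¹ := by
    rw [h3.2]
    refine Finset.sum_congr rfl fun β _ => ?_
    rw [(h2 β).2]
    exact Finset.sum_congr rfl fun α _ => (h1 β α).2
  have h6 := congrArg (algebraMap ℝ ℂ) h5
  rw [map_zero, map_sum] at h6
  rw [h6]
  refine Finset.sum_congr rfl fun β _ => ?_
  rw [map_sum]
  refine Finset.sum_congr rfl fun α _ => ?_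
  rw [map_mul, map_prod]
  have h7 : (p β α).eval₂ (algebraMap ℚ ℂ) ((w : ℂ)⁻¹) =
      algebraMap ℝ ℂ (((p β α).map (algebraMap ℚ ℝ)).eval w⁻¹) := by
    rw [eval_map, hom_eval₂]
    have h8 : (algebraMap ℝ ℂ) w⁻¹ = (w : ℂ)⁻¹ := by
      rw [map_inv₀]
      rfl
    rw [h8]
    rfl
  rw [h7]
  rfl

/-- FSA -/
theorem fsa (h1 : BasStmt) (h2 : VagStmt) (h3 : PsaStmt) (h4 : EvaStmt) (hexa : ExaStmt)
    (hmoa : MoaStmt) : FsaStmt := by
  intro d _ _ F
  obtain ⟨D0, hD0⟩ := h3 d F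
  refine ⟨D0, ?_⟩
  intro ι _ _ κ hκ k
  obtain ⟨R0, hR⟩ := hD0 ι κ hκ
  have hmulZ : ∀ a ∈ F.Zc, ∀ b ∈ F.Zc, a * b ∈ F.Zc := fun a ha b hb =>
    zcl_mul (hmoa d F Set.univ).2.2.1 ha hb
  have hT : ∀ᶠ w : ℝ in Filter.atTop, ∀ i : ι,
      YH F.H F.N ((w : ℂ) - κ i) = F.tv (κ i) w * eN F.N (-(Complex.log w)) := by
    rw [Filter.eventually_all]
    intro i
    exact tv_eqA h1 h2 F (κ i)
  obtain ⟨R1, hR1⟩ := Filter.eventually_atTop.mp hT
  refine ⟨max R0 (max R1 0), fun p hp w hw g hg => ?_⟩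
  have hw0 : R0 < w := lt_of_le_of_lt (le_max_left _ _) hw
  have hw1 : R1 ≤ w := (lt_of_le_of_lt ((le_max_left _ _).trans (le_max_right _ _)) hw).le
  have hw2 : 0 < w := lt_of_le_of_lt ((le_max_right _ _).trans (le_max_right _ _)) hw
  obtain ⟨D, hD⟩ : ∃ D : ℕ, ∀ β α, (p β α).natDegree ≤ D :=
    ⟨Finset.univ.sup fun x : (ι × Fin k → d) × (ι × Fin k → d) => (p x.1 x.2).natDegree,
      fun β α => Finset.le_sup (f := fun x : (ι × Fin k → d) × (ι × Fin k → d) =>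
        (p x.1 x.2).natDegree) (Finset.mem_univ (β, α))⟩
  have hnil := F.sys.nil
  have hΦ : ∀ᶠ w : ℝ in Filter.atTop, MvPolynomial.eval (vr (w : ℂ) (Complex.log w)
      fun i => YH F.H F.N ((w : ℂ) - κ i)) (Ph F.N k D p) = 0 := by
    filter_upwards [hT, rel_evA h4 F κ k p hp, Filter.eventually_gt_atTop 0] with x hx1 hx2 hx0
    rw [ph_eval F.N k D p hD _ _ (by exact_mod_cast hx0.ne')]
    have h5 : ∀ s : ι × Fin k, YH F.H F.N ((x : ℂ) - κ s.1) * eN F.N (Complex.log x) =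
        F.tv (κ s.1) x := by
      intro s
      rw [hx1, Matrix.mul_assoc, MT100.H27.eN_mul hnil, neg_add_cancel, MT100.H27.eN_zero hnil, mul_one]
    simp only [h5]
    rw [hx2, mul_zero]
  have h5 := hR (Ph F.N k D p) hΦ w hw0
    (fun i => eN F.N (Complex.log w) * g i * eN F.N (-(Complex.log w)))
    (fun i => hmulZ _ (hmulZ _ (hexa d F _) _ (hg i)) _ (hexa d F _))
  have hwc : (w : ℂ) ≠ 0 := by exact_mod_cast hw2.ne'
  rw [ph_eval F.N k D p hD _ _ hwc] at h5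
  have h6 : ∀ s : ι × Fin k, YH F.H F.N ((w : ℂ) - κ s.1) *
      (eN F.N (Complex.log w) * g s.1 * eN F.N (-(Complex.log w))) * eN F.N (Complex.log w) =
        F.tv (κ s.1) w * g s.1 := by
    intro s
    have h7 : eN F.N (-(Complex.log (w : ℂ))) * eN F.N (Complex.log w) = 1 := by
      rw [MT100.H27.eN_mul hnil, neg_add_cancel, MT100.H27.eN_zero hnil]
    rw [hR1 w hw1 s.1]
    calc F.tv (κ s.1) w * eN F.N (-(Complex.log w)) *
          (eN F.N (Complex.log w) * g s.1 * eN F.N (-(Complex.log w))) * eN F.N (Complex.log w)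
        = F.tv (κ s.1) w * (eN F.N (-(Complex.log w)) * eN F.N (Complex.log w)) * g s.1 *
          (eN F.N (-(Complex.log w)) * eN F.N (Complex.log w)) := by
          simp only [Matrix.mul_assoc]
      _ = F.tv (κ s.1) w * g s.1 := by rw [h7, mul_one, mul_one]
  simp only [h6] at h5
  exact (mul_eq_zero.mp h5).resolve_left (pow_ne_zero D hwc)

end Pool.Agent.MT100A.H78
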